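import Pool.Agent.TokenGame.Bounds

set_option autoImplicit false

namespace Pool.Agent.Results.MP_f00a0c_co.Value

open Pool.Agent.TokenGame

theorem floor_bounds (w : ℕ) : (5 * w : ℕ) ≤ 4 * (w + (w + 2) / 4) + 1 ∧
    4 * (w + (w + 2) / 4) ≤ 5 * w + 2 := by omega

/-- The exact value of the token colouring game on `C_5^+`, and the resulting limit `5/4`. -/
theorem result :
    (∀ w : ℕ, tokenValue w C5plus = w + (w + 2) / 4) ∧
      Filter.Tendsto (fun w : ℕ => (tokenValue w C5plus : ℝ) / (w : ℝ)) Filter.atTop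
        (nhds (5 / 4)) := by
  have h1 : ∀ w : ℕ, tokenValue w C5plus = w + (w + 2) / 4 := fun w => (isLeast_value w).csInf_eq
  refine ⟨h1, ?_⟩
  simp only [h1]
  have l1 : Filter.Tendsto (fun w : ℕ => (5 / 4 : ℝ) - (1 / 4) / (w : ℝ)) Filter.atTop
      (nhds (5 / 4)) := by
    simpa using (tendsto_const_nhds (x := (5 / 4 : ℝ))).sub
      (tendsto_const_div_atTop_nhds_zero_nat (1 / 4 : ℝ))
  have l2 : Filter.Tendsto (fun w : ℕ => (5 / 4 : ℝ) + (1 / 2) / (w : ℝ)) Filter.atTop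
      (nhds (5 / 4)) := by
    simpa using (tendsto_const_nhds (x := (5 / 4 : ℝ))).add
      (tendsto_const_div_atTop_nhds_zero_nat (1 / 2 : ℝ))
  refine tendsto_of_tendsto_of_tendsto_of_le_of_le' l1 l2 ?_ ?_
  · filter_upwards [Filter.eventually_gt_atTop 0] with w hw
    have hw' : (0 : ℝ) < w := by exact_mod_cast hw
    have h := (floor_bounds w).1
    have h' : (5 : ℝ) * w ≤ 4 * ((w + (w + 2) / 4 : ℕ) : ℝ) + 1 := by exact_mod_cast h
    rw [le_div_iff₀ hw', sub_mul, div_mul_cancel₀ _ hw'.ne']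
    linarith
  · filter_upwards [Filter.eventually_gt_atTop 0] with w hw
    have hw' : (0 : ℝ) < w := by exact_mod_cast hw
    have h := (floor_bounds w).2
    have h' : 4 * ((w + (w + 2) / 4 : ℕ) : ℝ) ≤ 5 * w + 2 := by exact_mod_cast h
    rw [div_le_iff₀ hw', add_mul, div_mul_cancel₀ _ hw'.ne']
    linarith

end Pool.Agent.Results.MP_f00a0c_co.Value
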